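import Pool.Agent.H54Waring.Final

set_option autoImplicit false

namespace Pool.Agent.Results.MP_570bef_nt.LinearDensity

open Finset

/-- the set of sums of s k-th powers of nonnegative integers -/
def SumsOfPowers (k s : ℕ) : Set ℕ := {n | ∃ x : Fin s → ℕ, n = ∑ i, x i ^ k}

/-- positive lower asymptotic density -/
def PositiveLowerDensity (A : Set ℕ) : Prop := ∃ δ : ℝ, 0 < δ ∧ ∃ N0 : ℕ, ∀ N : ℕ, N0 ≤ N →
  δ * N ≤ (Nat.card {n : ℕ // n < N ∧ n ∈ A} : ℝ)

/-- every sufficiently large integer is in the set -/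
def ContainsAllLarge (A : Set ℕ) : Prop := ∃ N1 : ℕ, ∀ n : ℕ, N1 ≤ n → n ∈ A

theorem result :
    ((∃ C : ℕ, ∀ k : ℕ, 2 ≤ k → ContainsAllLarge (SumsOfPowers k (C * k))) ↔
      (∃ C : ℕ, ∀ k : ℕ, 2 ≤ k → PositiveLowerDensity (SumsOfPowers k (C * k)))) ∧
    (∀ k : ℕ, 2 ≤ k → PositiveLowerDensity (SumsOfPowers k (48 * k)) →
      ContainsAllLarge (SumsOfPowers k (100 * k))) := by
  refine ⟨H54Waring.final_equiv H54Waring.sDENS H54Waring.sMAIN, fun k hk h => ?_⟩
  have := (H54Waring.final_waring H54Waring.sDENS H54Waring.sMAIN k (48 * k) hk h).2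
  have e : 2 * (48 * k) + 4 * k = 100 * k := by ring
  rw [e] at this
  exact this

end Pool.Agent.Results.MP_570bef_nt.LinearDensity
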